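import Mathlib

/-! MP_a60869_co: super edge-magic labelings of book graphs, general part. -/

namespace Pool.Agent.X239.BK

open SimpleGraph

/-- `G`, with `p` vertices and `q` edges, is super edge-magic: there is a bijection `f` from
vertices and edges onto `{1, …, p+q}` with `f(u) + f(v) + f(uv)` constant over the edges `uv` and
with `f(V) = {1, …, p}`. -/
def IsSuperEdgeMagic {V : Type*} [Fintype V] (G : SimpleGraph V) : Prop :=
  ∃ (f : V ⊕ G.edgeSet → ℕ) (σ : ℕ),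
    Set.BijOn f Set.univ (Set.Icc 1 (Fintype.card V + Nat.card G.edgeSet)) ∧
    (∀ (u v : V) (h : G.Adj u v),
      f (Sum.inl u) + f (Sum.inl v) + f (Sum.inr ⟨s(u, v), G.mem_edgeSet.2 h⟩) = σ) ∧
    f '' Set.range Sum.inl = Set.Icc 1 (Fintype.card V)

/-- The book `B_n = K_{1,n} □ K_2`. -/
def book (n : ℕ) : SimpleGraph ((Fin 1 ⊕ Fin n) × Fin 2) :=
  completeBipartiteGraph (Fin 1) (Fin n) □ (⊤ : SimpleGraph (Fin 2))

/-! ### The edges -/

section edges
variable (n : ℕ)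

theorem adj0 : (book n).Adj (Sum.inl 0, 0) (Sum.inl 0, 1) := by
  simp [book, boxProd_adj]

theorem adjA (i : Fin n) : (book n).Adj (Sum.inl 0, 0) (Sum.inr i, 0) := by
  simp [book, boxProd_adj]

theorem adjB (i : Fin n) : (book n).Adj (Sum.inl 0, 1) (Sum.inr i, 1) := by
  simp [book, boxProd_adj]

theorem adjC (i : Fin n) : (book n).Adj (Sum.inr i, 0) (Sum.inr i, 1) := by
  simp [book, boxProd_adj]

/-- edge names -/
abbrev EN (n : ℕ) := Unit ⊕ (Fin n ⊕ (Fin n ⊕ Fin n))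

/-- the edge with the given name -/
def phi : EN n → (book n).edgeSet
  | .inl _ => ⟨_, (book n).mem_edgeSet.2 (adj0 n)⟩
  | .inr (.inl i) => ⟨_, (book n).mem_edgeSet.2 (adjA n i)⟩
  | .inr (.inr (.inl i)) => ⟨_, (book n).mem_edgeSet.2 (adjB n i)⟩
  | .inr (.inr (.inr i)) => ⟨_, (book n).mem_edgeSet.2 (adjC n i)⟩

theorem phi_inj : Function.Injective (phi n) := by
  intro x y h
  have h' := congrArg Subtype.val h
  rcases x with x | x | x | x <;> rcases y with y | y | y | y <;>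
    simp [phi] at h' ⊢ <;> exact h'

theorem adj_cases {u v : (Fin 1 ⊕ Fin n) × Fin 2} (h : (book n).Adj u v) :
    ∃ x, s(u, v) = (phi n x).1 := by
  obtain ⟨u1, u2⟩ := u
  obtain ⟨v1, v2⟩ := v
  rw [book, boxProd_adj] at h
  simp only [completeBipartiteGraph_adj, top_adj] at h
  rcases h with ⟨h1, h2⟩ | ⟨h1, h2⟩
  · subst h2
    rcases u1 with u1 | u1 <;> rcases v1 with v1 | v1 <;> simp at h1
    · have : u1 = 0 := Subsingleton.elim _ _
      subst this
      fin_cases u2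
      · exact ⟨.inr (.inl v1), rfl⟩
      · exact ⟨.inr (.inr (.inl v1)), rfl⟩
    · have : v1 = 0 := Subsingleton.elim _ _
      subst this
      fin_cases u2
      · exact ⟨.inr (.inl u1), Sym2.eq_swap⟩
      · exact ⟨.inr (.inr (.inl u1)), Sym2.eq_swap⟩
  · subst h2
    rcases u1 with u1 | u1
    · have : u1 = 0 := Subsingleton.elim _ _
      subst this
      fin_cases u2 <;> fin_cases v2 <;> simp at h1
      · exact ⟨.inl (), rfl⟩
      · exact ⟨.inl (), Sym2.eq_swap⟩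
    · fin_cases u2 <;> fin_cases v2 <;> simp at h1
      · exact ⟨.inr (.inr (.inr u1)), rfl⟩
      · exact ⟨.inr (.inr (.inr u1)), Sym2.eq_swap⟩

theorem phi_surj : Function.Surjective (phi n) := by
  rintro ⟨e, he⟩
  induction e using Sym2.ind with
  | _ u v =>
    obtain ⟨x, hx⟩ := adj_cases n ((book n).mem_edgeSet.1 he)
    exact ⟨x, Subtype.ext hx.symm⟩

/-- the edges of the book -/
noncomputable def Phi : EN n ≃ (book n).edgeSet :=
  Equiv.ofBijective (phi n) ⟨phi_inj n, phi_surj n⟩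

theorem card_edges : Nat.card (book n).edgeSet = 3 * n + 1 := by
  rw [← Nat.card_congr (Phi n)]
  simp [EN]
  ring

theorem card_verts : Fintype.card ((Fin 1 ⊕ Fin n) × Fin 2) = 2 * n + 2 := by
  simp; ring

end edges

/-- A map from a set of `b + 1 - a` elements that covers `{a, …, b}` is a bijection onto it. -/
theorem inj_of_cover {α : Type*} [Fintype α] (g : α → ℕ) (a b : ℕ)
    (hcard : Fintype.card α = b + 1 - a) (h : ∀ x, a ≤ x → x ≤ b → ∃ w, g w = x) :
    Function.Injective g ∧ ∀ w, a ≤ g w ∧ g w ≤ b := by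
  classical
  have hsub : Finset.Icc a b ⊆ Finset.univ.image g := by
    intro x hx
    rw [Finset.mem_Icc] at hx
    obtain ⟨w, hw⟩ := h x hx.1 hx.2
    exact Finset.mem_image.2 ⟨w, Finset.mem_univ _, hw⟩
  have hle : (Finset.univ.image g).card ≤ (Finset.Icc a b).card := by
    rw [Nat.card_Icc, ← hcard]
    exact Finset.card_image_le
  have heq : Finset.Icc a b = Finset.univ.image g := Finset.eq_of_subset_of_card_le hsub hle
  constructor
  · have : (Finset.univ.image g).card = (Finset.univ : Finset α).card := by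
      rw [← heq, Nat.card_Icc, ← hcard]; rfl
    have h2 := Finset.card_image_iff.1 this
    intro x y hxy
    exact h2 (by simp) (by simp) hxy
  · intro w
    have : g w ∈ Finset.Icc a b := by rw [heq]; exact Finset.mem_image_of_mem _ (Finset.mem_univ _)
    exact Finset.mem_Icc.1 this

/-- vertex labels -/
def vl {n : ℕ} (U V : ℕ) (A B : Fin n → ℕ) : (Fin 1 ⊕ Fin n) × Fin 2 → ℕ
  | (.inl _, 0) => U
  | (.inl _, 1) => V
  | (.inr i, 0) => A i
  | (.inr i, 1) => B i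

/-- sums of the labels at the ends of the edges -/
def es {n : ℕ} (U V : ℕ) (A B : Fin n → ℕ) : EN n → ℕ
  | .inl _ => U + V
  | .inr (.inl i) => U + A i
  | .inr (.inr (.inl i)) => V + B i
  | .inr (.inr (.inr i)) => A i + B i

/-- label of a vertex pair, as a function on `Sym2` -/
theorem es_eq {n : ℕ} (U V : ℕ) (A B : Fin n → ℕ) {u v : (Fin 1 ⊕ Fin n) × Fin 2}
    (h : (book n).Adj u v) :
    es U V A B ((Phi n).symm ⟨s(u, v), (book n).mem_edgeSet.2 h⟩) =
      vl U V A B u + vl U V A B v := by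
  obtain ⟨x, hx⟩ := adj_cases n h
  have h1 : (Phi n).symm ⟨s(u, v), (book n).mem_edgeSet.2 h⟩ = x := by
    rw [Equiv.symm_apply_eq]
    exact Subtype.ext hx
  rw [h1]
  let F : Sym2 ((Fin 1 ⊕ Fin n) × Fin 2) → ℕ :=
    Sym2.lift ⟨fun a b => vl U V A B a + vl U V A B b, fun a b => add_comm _ _⟩
  have h2 : vl U V A B u + vl U V A B v = F s(u, v) := rfl
  rw [h2, hx]
  rcases x with x | x | x | x <;> rfl

theorem sem_of_cover (n U V s : ℕ) (A B : Fin n → ℕ)
    (hl : ∀ x, 1 ≤ x → x ≤ 2 * n + 2 → x = U ∨ x = V ∨ (∃ i, A i = x) ∨ ∃ i, B i = x)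
    (hs : ∀ y, s ≤ y → y ≤ s + 3 * n →
      y = U + V ∨ (∃ i, U + A i = y) ∨ (∃ i, V + B i = y) ∨ ∃ i, A i + B i = y) :
    IsSuperEdgeMagic (book n) := by
  obtain ⟨gi, gr⟩ := inj_of_cover (vl U V A B) 1 (2 * n + 2) (by rw [card_verts]; omega) (by
    intro x h1 h2
    rcases hl x h1 h2 with rfl | rfl | ⟨i, hi⟩ | ⟨i, hi⟩
    · exact ⟨(.inl 0, 0), rfl⟩
    · exact ⟨(.inl 0, 1), rfl⟩
    · exact ⟨(.inr i, 0), hi⟩
    · exact ⟨(.inr i, 1), hi⟩)
  obtain ⟨si, sr⟩ := inj_of_cover (es U V A B) s (s + 3 * n) (by simp; omega) (by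
    intro y h1 h2
    rcases hs y h1 h2 with rfl | ⟨i, hi⟩ | ⟨i, hi⟩ | ⟨i, hi⟩
    · exact ⟨.inl (), rfl⟩
    · exact ⟨.inr (.inl i), hi⟩
    · exact ⟨.inr (.inr (.inl i)), hi⟩
    · exact ⟨.inr (.inr (.inr i)), hi⟩)
  have gs : ∀ x, 1 ≤ x → x ≤ 2 * n + 2 → ∃ w, vl U V A B w = x := by
    intro x h1 h2
    rcases hl x h1 h2 with rfl | rfl | ⟨i, hi⟩ | ⟨i, hi⟩
    · exact ⟨(.inl 0, 0), rfl⟩
    · exact ⟨(.inl 0, 1), rfl⟩
    · exact ⟨(.inr i, 0), hi⟩
    · exact ⟨(.inr i, 1), hi⟩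
  have ss : ∀ y, s ≤ y → y ≤ s + 3 * n → ∃ w, es U V A B w = y := by
    intro y h1 h2
    rcases hs y h1 h2 with rfl | ⟨i, hi⟩ | ⟨i, hi⟩ | ⟨i, hi⟩
    · exact ⟨.inl (), rfl⟩
    · exact ⟨.inr (.inl i), hi⟩
    · exact ⟨.inr (.inr (.inl i)), hi⟩
    · exact ⟨.inr (.inr (.inr i)), hi⟩
  refine ⟨Sum.elim (vl U V A B) (fun e => 5 * n + 3 + s - es U V A B ((Phi n).symm e)),
    5 * n + 3 + s, ⟨?_, ?_, ?_⟩, ?_, ?_⟩
  · rintro x -
    rw [card_verts, card_edges, Set.mem_Icc]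
    rcases x with x | x
    · have := gr x
      simp only [Sum.elim_inl]; omega
    · have := sr ((Phi n).symm x)
      simp only [Sum.elim_inr]; omega
  · rintro x - y - hxy
    rcases x with x | x <;> rcases y with y | y <;>
      simp only [Sum.elim_inl, Sum.elim_inr] at hxy
    · rw [gi hxy]
    · exfalso
      have := gr x
      have := sr ((Phi n).symm y)
      omega
    · exfalso
      have := gr y
      have := sr ((Phi n).symm x)
      omega
    · have h1 := sr ((Phi n).symm x)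
      have h2 := sr ((Phi n).symm y)
      have h3 : es U V A B ((Phi n).symm x) = es U V A B ((Phi n).symm y) := by omega
      rw [(Phi n).symm.injective (si h3)]
  · intro k hk
    rw [card_verts, card_edges, Set.mem_Icc] at hk
    rcases Nat.lt_or_ge (2 * n + 2) k with h | h
    · obtain ⟨w, hw⟩ := ss (5 * n + 3 + s - k) (by omega) (by omega)
      refine ⟨Sum.inr (Phi n w), trivial, ?_⟩
      simp only [Sum.elim_inr, Equiv.symm_apply_apply, hw]
      omega
    · obtain ⟨w, hw⟩ := gs k hk.1 h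
      exact ⟨Sum.inl w, trivial, hw⟩
  · intro u v h
    simp only [Sum.elim_inl, Sum.elim_inr]
    have h1 := sr ((Phi n).symm ⟨s(u, v), (book n).mem_edgeSet.2 h⟩)
    have h2 := es_eq U V A B h
    omega
  · rw [card_verts]
    ext x
    constructor
    · rintro ⟨_, ⟨w, rfl⟩, rfl⟩
      exact gr w
    · rintro ⟨h1, h2⟩
      obtain ⟨w, hw⟩ := gs x h1 h2
      exact ⟨_, ⟨w, rfl⟩, hw⟩

/-- The same from a list of pages. -/
theorem sem_of_pages (n U V s : ℕ) (pages : List (ℕ × ℕ)) (hlen : pages.length = n)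
    (hl : ∀ x, 1 ≤ x → x ≤ 2 * n + 2 → x = U ∨ x = V ∨ ∃ p ∈ pages, p.1 = x ∨ p.2 = x)
    (hs : ∀ y, s ≤ y → y ≤ s + 3 * n →
      y = U + V ∨ ∃ p ∈ pages, U + p.1 = y ∨ V + p.2 = y ∨ p.1 + p.2 = y) :
    IsSuperEdgeMagic (book n) := by
  subst hlen
  apply sem_of_cover pages.length U V s (fun i => (pages.get i).1) (fun i => (pages.get i).2)
  · intro x h1 h2
    rcases hl x h1 h2 with h | h | ⟨p, hp, h⟩
    · exact Or.inl h
    · exact Or.inr (Or.inl h)
    · obtain ⟨i, rfl⟩ := List.mem_iff_get.1 hp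
      rcases h with h | h
      · exact Or.inr (Or.inr (Or.inl ⟨i, h⟩))
      · exact Or.inr (Or.inr (Or.inr ⟨i, h⟩))
  · intro x h1 h2
    rcases hs x h1 h2 with h | ⟨p, hp, h⟩
    · exact Or.inl h
    · obtain ⟨i, rfl⟩ := List.mem_iff_get.1 hp
      rcases h with h | h | h
      · exact Or.inr (Or.inl ⟨i, h⟩)
      · exact Or.inr (Or.inr (Or.inl ⟨i, h⟩))
      · exact Or.inr (Or.inr (Or.inr ⟨i, h⟩))

/-! ### Necessity -/

theorem sum_of_bij {α : Type*} [Fintype α] (f : α → ℕ) (N : ℕ)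
    (h : Set.BijOn f Set.univ (Set.Icc 1 N)) : 2 * ∑ x, f x = N * (N + 1) := by
  classical
  have h1 : ∑ x, f x = ∑ k ∈ Finset.Icc 1 N, k := by
    apply Finset.sum_bij (fun x _ => f x)
    · intro x _
      exact Finset.mem_Icc.2 (h.mapsTo (Set.mem_univ x))
    · intro x _ y _ hxy
      exact h.injOn (Set.mem_univ _) (Set.mem_univ _) hxy
    · intro k hk
      obtain ⟨x, -, hx⟩ := h.surjOn (Finset.mem_Icc.1 hk)
      exact ⟨x, Finset.mem_univ _, hx⟩
    · intro x _; rfl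
  rw [h1]
  clear h h1
  induction N with
  | zero => simp
  | succ N ih =>
    rw [Finset.sum_Icc_succ_top (by omega), mul_add, ih]
    ring

theorem necessary (n : ℕ) (h : IsSuperEdgeMagic (book n)) : Even n ∨ n % 8 = 5 := by
  obtain ⟨f, σ, h1, h2, h3⟩ := h
  have : Fintype (book n).edgeSet := Fintype.ofEquiv _ (Phi n)
  -- the three sums
  have hall := sum_of_bij f _ h1
  rw [card_verts, card_edges, Fintype.sum_sum_type] at hall
  have hv : 2 * ∑ v, f (Sum.inl v) = (2 * n + 2) * (2 * n + 2 + 1) := by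
    apply sum_of_bij
    rw [card_verts] at h3
    refine ⟨?_, ?_, ?_⟩
    · intro v _
      rw [← h3]
      exact ⟨_, ⟨v, rfl⟩, rfl⟩
    · intro v _ w _ hvw
      exact Sum.inl_injective (h1.injOn (Set.mem_univ _) (Set.mem_univ _) hvw)
    · intro k hk
      rw [← h3] at hk
      obtain ⟨_, ⟨v, rfl⟩, hv⟩ := hk
      exact ⟨v, trivial, hv⟩
  have he : ∑ e, f (Sum.inr e) = ∑ x : EN n, f (Sum.inr (Phi n x)) :=
    (Equiv.sum_comp (Phi n) (fun e => f (Sum.inr e))).symm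
  rw [he, Fintype.sum_sum_type, Fintype.sum_sum_type, Fintype.sum_sum_type] at hall
  have hvv : ∑ v, f (Sum.inl v) = f (Sum.inl (Sum.inl 0, 0)) + f (Sum.inl (Sum.inl 0, 1)) +
      (∑ i : Fin n, f (Sum.inl (Sum.inr i, 0)) + ∑ i : Fin n, f (Sum.inl (Sum.inr i, 1))) := by
    rw [Fintype.sum_prod_type]
    simp [Fin.sum_univ_two, Finset.sum_add_distrib]
    ring
  have e0 := h2 _ _ (adj0 n)
  have eA : ∑ i : Fin n, (f (Sum.inl (Sum.inl 0, 0)) + f (Sum.inl (Sum.inr i, 0)) +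
      f (Sum.inr (Phi n (.inr (.inl i))))) = n * σ := by
    refine (Finset.sum_congr rfl (fun i _ => ?_)).trans (by simp : ∑ _i : Fin n, σ = n * σ)
    exact h2 _ _ (adjA n i)
  have eB : ∑ i : Fin n, (f (Sum.inl (Sum.inl 0, 1)) + f (Sum.inl (Sum.inr i, 1)) +
      f (Sum.inr (Phi n (.inr (.inr (.inl i)))))) = n * σ := by
    refine (Finset.sum_congr rfl (fun i _ => ?_)).trans (by simp : ∑ _i : Fin n, σ = n * σ)
    exact h2 _ _ (adjB n i)
  have eC : ∑ i : Fin n, (f (Sum.inl (Sum.inr i, 0)) + f (Sum.inl (Sum.inr i, 1)) +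
      f (Sum.inr (Phi n (.inr (.inr (.inr i)))))) = n * σ := by
    refine (Finset.sum_congr rfl (fun i _ => ?_)).trans (by simp : ∑ _i : Fin n, σ = n * σ)
    exact h2 _ _ (adjC n i)
  have e0' : f (Sum.inl (Sum.inl 0, 0)) + f (Sum.inl (Sum.inl 0, 1)) +
      ∑ x : Unit, f (Sum.inr (Phi n (.inl x))) = σ := by
    rw [Fintype.sum_unique]
    exact e0
  simp only [Finset.sum_add_distrib, Finset.sum_const, Finset.card_univ, Fintype.card_fin,
    smul_eq_mul] at eA eB eC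
  rw [hvv] at hv hall
  generalize ∑ x : Unit, f (Sum.inr (Phi n (.inl x))) = S0 at *
  generalize ∑ i : Fin n, f (Sum.inr (Phi n (.inr (.inl i)))) = SA at *
  generalize ∑ i : Fin n, f (Sum.inr (Phi n (.inr (.inr (.inl i))))) = SB at *
  generalize ∑ i : Fin n, f (Sum.inr (Phi n (.inr (.inr (.inr i))))) = SC at *
  generalize ∑ i : Fin n, f (Sum.inl (Sum.inr i, 0)) = TA at *
  generalize ∑ i : Fin n, f (Sum.inl (Sum.inr i, 1)) = TB at *
  generalize f (Sum.inl (Sum.inl 0, 0)) = U at *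
  generalize f (Sum.inl (Sum.inl 0, 1)) = V at *
  by_contra hcon
  push Not at hcon
  obtain ⟨hodd, h5⟩ := hcon
  rw [Nat.not_even_iff_odd] at hodd
  obtain ⟨t, ht⟩ : ∃ t, n = 8 * t + n % 8 := ⟨n / 8, by omega⟩
  have hn2 : n % 8 = 1 ∨ n % 8 = 3 ∨ n % 8 = 7 := by
    have := Nat.odd_iff.1 hodd
    omega
  -- `(3n+1)σ = (n-1)(U+V) + p(p+1)/2 + (p+q)(p+q+1)/2`, in the form `2(3n+1)σ + 2(U+V) = …`
  have key : 2 * ((3 * n + 1) * σ) + 2 * (U + V) = 2 * (n * (U + V)) +
      (2 * n + 2) * (2 * n + 2 + 1) + (2 * n + 2 + (3 * n + 1)) * (2 * n + 2 + (3 * n + 1) + 1) := by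
    rw [← hv, ← hall]
    nlinarith [e0', eA, eB, eC]
  rcases hn2 with h | h | h <;> rw [h] at ht <;> subst ht
  · ring_nf at key
    omega
  · ring_nf at key
    omega
  · ring_nf at key
    omega

end Pool.Agent.X239.BK
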