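import Pool.Agent.X239.BK.Core

/-! MP_a60869_co: the three families of explicit labellings (generated by a script). -/

namespace Pool.Agent.X239.BK

/-! ### Family 5: `n = 8 * m + 5` -/

/-- the regular pages of family 5 -/
def blk5 (m t : ℕ) : List (ℕ × ℕ) :=
  [(2 * m + 4 + t, 2 * m - 2 * t),
   (8 * m + 8 + t, 2 * m + 1 - 2 * t),
   (3 * m + 4 + t, 13 * m + 8 - 2 * t),
   (14 * m + 11 + t, 13 * m + 9 - 2 * t),
   (4 * m + 5 + t, 11 * m + 7 - 2 * t),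
   (15 * m + 13 + t, 11 * m + 6 - 2 * t),
   (7 * m + 4 - 2 * t, 7 * m + 8 + t),
   (7 * m + 5 - 2 * t, 13 * m + 11 + t)]

/-- the irregular pages of family 5 -/
def exc5 (m : ℕ) : List (ℕ × ℕ) :=
  [(4 * m + 4, 1),
   (5 * m + 5, 13 * m + 10),
   (7 * m + 6, 2 * m + 3),
   (15 * m + 11, 7 * m + 7),
   (15 * m + 12, 11 * m + 8)]

/-- the pages of family 5 -/
def pages5 (m : ℕ) : List (ℕ × ℕ) := (List.range m).flatMap (blk5 m) ++ exc5 m

theorem len5 (m : ℕ) : (pages5 m).length = 8 * m + 5 := by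
  simp [pages5, blk5, exc5, List.length_flatMap]
  try omega

theorem c5_0 {m t : ℕ} (ht : t < m) : (2 * m + 4 + t, 2 * m - 2 * t) ∈ pages5 m :=
  List.mem_append.2 (Or.inl (List.mem_flatMap.2 ⟨t, List.mem_range.2 ht, by simp [blk5]⟩))

theorem c5_1 {m t : ℕ} (ht : t < m) : (8 * m + 8 + t, 2 * m + 1 - 2 * t) ∈ pages5 m :=
  List.mem_append.2 (Or.inl (List.mem_flatMap.2 ⟨t, List.mem_range.2 ht, by simp [blk5]⟩))

theorem c5_2 {m t : ℕ} (ht : t < m) : (3 * m + 4 + t, 13 * m + 8 - 2 * t) ∈ pages5 m :=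
  List.mem_append.2 (Or.inl (List.mem_flatMap.2 ⟨t, List.mem_range.2 ht, by simp [blk5]⟩))

theorem c5_3 {m t : ℕ} (ht : t < m) : (14 * m + 11 + t, 13 * m + 9 - 2 * t) ∈ pages5 m :=
  List.mem_append.2 (Or.inl (List.mem_flatMap.2 ⟨t, List.mem_range.2 ht, by simp [blk5]⟩))

theorem c5_4 {m t : ℕ} (ht : t < m) : (4 * m + 5 + t, 11 * m + 7 - 2 * t) ∈ pages5 m :=
  List.mem_append.2 (Or.inl (List.mem_flatMap.2 ⟨t, List.mem_range.2 ht, by simp [blk5]⟩))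

theorem c5_5 {m t : ℕ} (ht : t < m) : (15 * m + 13 + t, 11 * m + 6 - 2 * t) ∈ pages5 m :=
  List.mem_append.2 (Or.inl (List.mem_flatMap.2 ⟨t, List.mem_range.2 ht, by simp [blk5]⟩))

theorem c5_6 {m t : ℕ} (ht : t < m) : (7 * m + 4 - 2 * t, 7 * m + 8 + t) ∈ pages5 m :=
  List.mem_append.2 (Or.inl (List.mem_flatMap.2 ⟨t, List.mem_range.2 ht, by simp [blk5]⟩))

theorem c5_7 {m t : ℕ} (ht : t < m) : (7 * m + 5 - 2 * t, 13 * m + 11 + t) ∈ pages5 m :=
  List.mem_append.2 (Or.inl (List.mem_flatMap.2 ⟨t, List.mem_range.2 ht, by simp [blk5]⟩))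

theorem e5_0 (m : ℕ) : (4 * m + 4, 1) ∈ pages5 m :=
  List.mem_append.2 (Or.inr (by simp [exc5]))

theorem e5_1 (m : ℕ) : (5 * m + 5, 13 * m + 10) ∈ pages5 m :=
  List.mem_append.2 (Or.inr (by simp [exc5]))

theorem e5_2 (m : ℕ) : (7 * m + 6, 2 * m + 3) ∈ pages5 m :=
  List.mem_append.2 (Or.inr (by simp [exc5]))

theorem e5_3 (m : ℕ) : (15 * m + 11, 7 * m + 7) ∈ pages5 m :=
  List.mem_append.2 (Or.inr (by simp [exc5]))

theorem e5_4 (m : ℕ) : (15 * m + 12, 11 * m + 8) ∈ pages5 m :=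
  List.mem_append.2 (Or.inr (by simp [exc5]))

theorem lab5 (m x : ℕ) (h1 : 1 ≤ x) (h2 : x ≤ 2 * (8 * m + 5) + 2) :
    x = 2 * m + 2 ∨ x = 11 * m + 9 ∨ ∃ p ∈ pages5 m, p.1 = x ∨ p.2 = x := by
  rcases Nat.lt_or_ge x (2) with g0 | g0
  · exact Or.inr (Or.inr ⟨_, e5_0 m, Or.inr (by simp only; omega)⟩)
  rcases Nat.lt_or_ge x (2 * m + 2) with g1 | g1
  · rcases Nat.even_or_odd' (x - (2)) with ⟨w, hw | hw⟩
    · exact Or.inr (Or.inr ⟨_, c5_0 (t := (((2 * m) - x) / 2)) (by omega), Or.inr (by simp only; omega)⟩)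
    · exact Or.inr (Or.inr ⟨_, c5_1 (t := (((2 * m + 1) - x) / 2)) (by omega), Or.inr (by simp only; omega)⟩)
  rcases Nat.lt_or_ge x (2 * m + 3) with g2 | g2
  · exact Or.inl (by omega)
  rcases Nat.lt_or_ge x (2 * m + 4) with g3 | g3
  · exact Or.inr (Or.inr ⟨_, e5_2 m, Or.inr (by simp only; omega)⟩)
  rcases Nat.lt_or_ge x (3 * m + 4) with g4 | g4
  · exact Or.inr (Or.inr ⟨_, c5_0 (t := (x - (2 * m + 4))) (by omega), Or.inl (by simp only; omega)⟩)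
  rcases Nat.lt_or_ge x (4 * m + 4) with g5 | g5
  · exact Or.inr (Or.inr ⟨_, c5_2 (t := (x - (3 * m + 4))) (by omega), Or.inl (by simp only; omega)⟩)
  rcases Nat.lt_or_ge x (4 * m + 5) with g6 | g6
  · exact Or.inr (Or.inr ⟨_, e5_0 m, Or.inl (by simp only; omega)⟩)
  rcases Nat.lt_or_ge x (5 * m + 5) with g7 | g7
  · exact Or.inr (Or.inr ⟨_, c5_4 (t := (x - (4 * m + 5))) (by omega), Or.inl (by simp only; omega)⟩)
  rcases Nat.lt_or_ge x (5 * m + 6) with g8 | g8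
  · exact Or.inr (Or.inr ⟨_, e5_1 m, Or.inl (by simp only; omega)⟩)
  rcases Nat.lt_or_ge x (7 * m + 6) with g9 | g9
  · rcases Nat.even_or_odd' (x - (5 * m + 6)) with ⟨w, hw | hw⟩
    · exact Or.inr (Or.inr ⟨_, c5_6 (t := (((7 * m + 4) - x) / 2)) (by omega), Or.inl (by simp only; omega)⟩)
    · exact Or.inr (Or.inr ⟨_, c5_7 (t := (((7 * m + 5) - x) / 2)) (by omega), Or.inl (by simp only; omega)⟩)
  rcases Nat.lt_or_ge x (7 * m + 7) with g10 | g10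
  · exact Or.inr (Or.inr ⟨_, e5_2 m, Or.inl (by simp only; omega)⟩)
  rcases Nat.lt_or_ge x (7 * m + 8) with g11 | g11
  · exact Or.inr (Or.inr ⟨_, e5_3 m, Or.inr (by simp only; omega)⟩)
  rcases Nat.lt_or_ge x (8 * m + 8) with g12 | g12
  · exact Or.inr (Or.inr ⟨_, c5_6 (t := (x - (7 * m + 8))) (by omega), Or.inr (by simp only; omega)⟩)
  rcases Nat.lt_or_ge x (9 * m + 8) with g13 | g13
  · exact Or.inr (Or.inr ⟨_, c5_1 (t := (x - (8 * m + 8))) (by omega), Or.inl (by simp only; omega)⟩)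
  rcases Nat.lt_or_ge x (11 * m + 8) with g14 | g14
  · rcases Nat.even_or_odd' (x - (9 * m + 8)) with ⟨w, hw | hw⟩
    · exact Or.inr (Or.inr ⟨_, c5_5 (t := (((11 * m + 6) - x) / 2)) (by omega), Or.inr (by simp only; omega)⟩)
    · exact Or.inr (Or.inr ⟨_, c5_4 (t := (((11 * m + 7) - x) / 2)) (by omega), Or.inr (by simp only; omega)⟩)
  rcases Nat.lt_or_ge x (11 * m + 9) with g15 | g15
  · exact Or.inr (Or.inr ⟨_, e5_4 m, Or.inr (by simp only; omega)⟩)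
  rcases Nat.lt_or_ge x (11 * m + 10) with g16 | g16
  · exact Or.inr (Or.inl (by omega))
  rcases Nat.lt_or_ge x (13 * m + 10) with g17 | g17
  · rcases Nat.even_or_odd' (x - (11 * m + 10)) with ⟨w, hw | hw⟩
    · exact Or.inr (Or.inr ⟨_, c5_2 (t := (((13 * m + 8) - x) / 2)) (by omega), Or.inr (by simp only; omega)⟩)
    · exact Or.inr (Or.inr ⟨_, c5_3 (t := (((13 * m + 9) - x) / 2)) (by omega), Or.inr (by simp only; omega)⟩)
  rcases Nat.lt_or_ge x (13 * m + 11) with g18 | g18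
  · exact Or.inr (Or.inr ⟨_, e5_1 m, Or.inr (by simp only; omega)⟩)
  rcases Nat.lt_or_ge x (14 * m + 11) with g19 | g19
  · exact Or.inr (Or.inr ⟨_, c5_7 (t := (x - (13 * m + 11))) (by omega), Or.inr (by simp only; omega)⟩)
  rcases Nat.lt_or_ge x (15 * m + 11) with g20 | g20
  · exact Or.inr (Or.inr ⟨_, c5_3 (t := (x - (14 * m + 11))) (by omega), Or.inl (by simp only; omega)⟩)
  rcases Nat.lt_or_ge x (15 * m + 12) with g21 | g21
  · exact Or.inr (Or.inr ⟨_, e5_3 m, Or.inl (by simp only; omega)⟩)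
  rcases Nat.lt_or_ge x (15 * m + 13) with g22 | g22
  · exact Or.inr (Or.inr ⟨_, e5_4 m, Or.inl (by simp only; omega)⟩)
  exact Or.inr (Or.inr ⟨_, c5_5 (t := (x - (15 * m + 13))) (by omega), Or.inl (by simp only; omega)⟩)

theorem sum5 (m x : ℕ) (h1 : 3 * m + 5 ≤ x) (h2 : x ≤ 3 * m + 5 + 3 * (8 * m + 5)) :
    x = 2 * m + 2 + (11 * m + 9) ∨ ∃ p ∈ pages5 m,
      2 * m + 2 + p.1 = x ∨ 11 * m + 9 + p.2 = x ∨ p.1 + p.2 = x := by
  rcases Nat.lt_or_ge x (4 * m + 5) with g0 | g0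
  · exact Or.inr ⟨_, c5_0 (t := ((4 * m + 4) - x)) (by omega), Or.inr (Or.inr (by simp only; omega))⟩
  rcases Nat.lt_or_ge x (4 * m + 6) with g1 | g1
  · exact Or.inr ⟨_, e5_0 m, Or.inr (Or.inr (by simp only; omega))⟩
  rcases Nat.lt_or_ge x (5 * m + 6) with g2 | g2
  · exact Or.inr ⟨_, c5_0 (t := (x - (4 * m + 6))) (by omega), Or.inl (by simp only; omega)⟩
  rcases Nat.lt_or_ge x (6 * m + 6) with g3 | g3
  · exact Or.inr ⟨_, c5_2 (t := (x - (5 * m + 6))) (by omega), Or.inl (by simp only; omega)⟩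
  rcases Nat.lt_or_ge x (6 * m + 7) with g4 | g4
  · exact Or.inr ⟨_, e5_0 m, Or.inl (by simp only; omega)⟩
  rcases Nat.lt_or_ge x (7 * m + 7) with g5 | g5
  · exact Or.inr ⟨_, c5_4 (t := (x - (6 * m + 7))) (by omega), Or.inl (by simp only; omega)⟩
  rcases Nat.lt_or_ge x (7 * m + 8) with g6 | g6
  · exact Or.inr ⟨_, e5_1 m, Or.inl (by simp only; omega)⟩
  rcases Nat.lt_or_ge x (9 * m + 8) with g7 | g7
  · rcases Nat.even_or_odd' (x - (7 * m + 8)) with ⟨w, hw | hw⟩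
    · exact Or.inr ⟨_, c5_6 (t := (((9 * m + 6) - x) / 2)) (by omega), Or.inl (by simp only; omega)⟩
    · exact Or.inr ⟨_, c5_7 (t := (((9 * m + 7) - x) / 2)) (by omega), Or.inl (by simp only; omega)⟩
  rcases Nat.lt_or_ge x (9 * m + 9) with g8 | g8
  · exact Or.inr ⟨_, e5_2 m, Or.inl (by simp only; omega)⟩
  rcases Nat.lt_or_ge x (9 * m + 10) with g9 | g9
  · exact Or.inr ⟨_, e5_2 m, Or.inr (Or.inr (by simp only; omega))⟩
  rcases Nat.lt_or_ge x (10 * m + 10) with g10 | g10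
  · exact Or.inr ⟨_, c5_1 (t := ((10 * m + 9) - x)) (by omega), Or.inr (Or.inr (by simp only; omega))⟩
  rcases Nat.lt_or_ge x (11 * m + 10) with g11 | g11
  · exact Or.inr ⟨_, c5_1 (t := (x - (10 * m + 10))) (by omega), Or.inl (by simp only; omega)⟩
  rcases Nat.lt_or_ge x (11 * m + 11) with g12 | g12
  · exact Or.inr ⟨_, e5_0 m, Or.inr (Or.inl (by simp only; omega))⟩
  rcases Nat.lt_or_ge x (13 * m + 11) with g13 | g13
  · rcases Nat.even_or_odd' (x - (11 * m + 11)) with ⟨w, hw | hw⟩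
    · exact Or.inr ⟨_, c5_0 (t := (((13 * m + 9) - x) / 2)) (by omega), Or.inr (Or.inl (by simp only; omega))⟩
    · exact Or.inr ⟨_, c5_1 (t := (((13 * m + 10) - x) / 2)) (by omega), Or.inr (Or.inl (by simp only; omega))⟩
  rcases Nat.lt_or_ge x (13 * m + 12) with g14 | g14
  · exact Or.inl (by omega)
  rcases Nat.lt_or_ge x (13 * m + 13) with g15 | g15
  · exact Or.inr ⟨_, e5_2 m, Or.inr (Or.inl (by simp only; omega))⟩
  rcases Nat.lt_or_ge x (14 * m + 13) with g16 | g16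
  · exact Or.inr ⟨_, c5_6 (t := ((14 * m + 12) - x)) (by omega), Or.inr (Or.inr (by simp only; omega))⟩
  rcases Nat.lt_or_ge x (15 * m + 13) with g17 | g17
  · exact Or.inr ⟨_, c5_4 (t := ((15 * m + 12) - x)) (by omega), Or.inr (Or.inr (by simp only; omega))⟩
  rcases Nat.lt_or_ge x (16 * m + 13) with g18 | g18
  · exact Or.inr ⟨_, c5_2 (t := ((16 * m + 12) - x)) (by omega), Or.inr (Or.inr (by simp only; omega))⟩
  rcases Nat.lt_or_ge x (17 * m + 13) with g19 | g19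
  · exact Or.inr ⟨_, c5_3 (t := (x - (16 * m + 13))) (by omega), Or.inl (by simp only; omega)⟩
  rcases Nat.lt_or_ge x (17 * m + 14) with g20 | g20
  · exact Or.inr ⟨_, e5_3 m, Or.inl (by simp only; omega)⟩
  rcases Nat.lt_or_ge x (17 * m + 15) with g21 | g21
  · exact Or.inr ⟨_, e5_4 m, Or.inl (by simp only; omega)⟩
  rcases Nat.lt_or_ge x (18 * m + 15) with g22 | g22
  · exact Or.inr ⟨_, c5_5 (t := (x - (17 * m + 15))) (by omega), Or.inl (by simp only; omega)⟩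
  rcases Nat.lt_or_ge x (18 * m + 16) with g23 | g23
  · exact Or.inr ⟨_, e5_1 m, Or.inr (Or.inr (by simp only; omega))⟩
  rcases Nat.lt_or_ge x (18 * m + 17) with g24 | g24
  · exact Or.inr ⟨_, e5_3 m, Or.inr (Or.inl (by simp only; omega))⟩
  rcases Nat.lt_or_ge x (19 * m + 17) with g25 | g25
  · exact Or.inr ⟨_, c5_6 (t := (x - (18 * m + 17))) (by omega), Or.inr (Or.inl (by simp only; omega))⟩
  rcases Nat.lt_or_ge x (20 * m + 17) with g26 | g26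
  · exact Or.inr ⟨_, c5_7 (t := ((20 * m + 16) - x)) (by omega), Or.inr (Or.inr (by simp only; omega))⟩
  rcases Nat.lt_or_ge x (22 * m + 17) with g27 | g27
  · rcases Nat.even_or_odd' (x - (20 * m + 17)) with ⟨w, hw | hw⟩
    · exact Or.inr ⟨_, c5_5 (t := (((22 * m + 15) - x) / 2)) (by omega), Or.inr (Or.inl (by simp only; omega))⟩
    · exact Or.inr ⟨_, c5_4 (t := (((22 * m + 16) - x) / 2)) (by omega), Or.inr (Or.inl (by simp only; omega))⟩
  rcases Nat.lt_or_ge x (22 * m + 18) with g28 | g28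
  · exact Or.inr ⟨_, e5_4 m, Or.inr (Or.inl (by simp only; omega))⟩
  rcases Nat.lt_or_ge x (22 * m + 19) with g29 | g29
  · exact Or.inr ⟨_, e5_3 m, Or.inr (Or.inr (by simp only; omega))⟩
  rcases Nat.lt_or_ge x (24 * m + 19) with g30 | g30
  · rcases Nat.even_or_odd' (x - (22 * m + 19)) with ⟨w, hw | hw⟩
    · exact Or.inr ⟨_, c5_2 (t := (((24 * m + 17) - x) / 2)) (by omega), Or.inr (Or.inl (by simp only; omega))⟩
    · exact Or.inr ⟨_, c5_3 (t := (((24 * m + 18) - x) / 2)) (by omega), Or.inr (Or.inl (by simp only; omega))⟩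
  rcases Nat.lt_or_ge x (24 * m + 20) with g31 | g31
  · exact Or.inr ⟨_, e5_1 m, Or.inr (Or.inl (by simp only; omega))⟩
  rcases Nat.lt_or_ge x (25 * m + 20) with g32 | g32
  · exact Or.inr ⟨_, c5_7 (t := (x - (24 * m + 20))) (by omega), Or.inr (Or.inl (by simp only; omega))⟩
  rcases Nat.lt_or_ge x (26 * m + 20) with g33 | g33
  · exact Or.inr ⟨_, c5_5 (t := ((26 * m + 19) - x)) (by omega), Or.inr (Or.inr (by simp only; omega))⟩
  rcases Nat.lt_or_ge x (26 * m + 21) with g34 | g34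
  · exact Or.inr ⟨_, e5_4 m, Or.inr (Or.inr (by simp only; omega))⟩
  exact Or.inr ⟨_, c5_3 (t := ((27 * m + 20) - x)) (by omega), Or.inr (Or.inr (by simp only; omega))⟩

/-! ### Family E0: `n = 4 * m + 12` -/

/-- the regular pages of family E0 -/
def blkE0 (m t : ℕ) : List (ℕ × ℕ) :=
  [(4 + t, 6 * m + 20 + t),
   (m + 8 + t, 7 * m + 23 + t),
   (2 * m + 10 + t, 4 * m + 15 + t),
   (3 * m + 12 + t, 5 * m + 18 + t)]

/-- the irregular pages of family E0 -/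
def excE0 (m : ℕ) : List (ℕ × ℕ) :=
  [(m + 4, 7 * m + 20),
   (4 * m + 12, 6 * m + 18),
   (1, 8 * m + 24),
   (3, 8 * m + 26),
   (2, 4 * m + 14),
   (4 * m + 13, 8 * m + 25),
   (m + 5, 5 * m + 17),
   (m + 6, 7 * m + 22),
   (m + 7, 5 * m + 16),
   (2 * m + 9, 8 * m + 23),
   (3 * m + 10, 7 * m + 21),
   (3 * m + 11, 5 * m + 15)]

/-- the pages of family E0 -/
def pagesE0 (m : ℕ) : List (ℕ × ℕ) := (List.range m).flatMap (blkE0 m) ++ excE0 m

theorem lenE0 (m : ℕ) : (pagesE0 m).length = 4 * m + 12 := by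
  simp [pagesE0, blkE0, excE0, List.length_flatMap]
  try omega

theorem cE0_0 {m t : ℕ} (ht : t < m) : (4 + t, 6 * m + 20 + t) ∈ pagesE0 m :=
  List.mem_append.2 (Or.inl (List.mem_flatMap.2 ⟨t, List.mem_range.2 ht, by simp [blkE0]⟩))

theorem cE0_1 {m t : ℕ} (ht : t < m) : (m + 8 + t, 7 * m + 23 + t) ∈ pagesE0 m :=
  List.mem_append.2 (Or.inl (List.mem_flatMap.2 ⟨t, List.mem_range.2 ht, by simp [blkE0]⟩))

theorem cE0_2 {m t : ℕ} (ht : t < m) : (2 * m + 10 + t, 4 * m + 15 + t) ∈ pagesE0 m :=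
  List.mem_append.2 (Or.inl (List.mem_flatMap.2 ⟨t, List.mem_range.2 ht, by simp [blkE0]⟩))

theorem cE0_3 {m t : ℕ} (ht : t < m) : (3 * m + 12 + t, 5 * m + 18 + t) ∈ pagesE0 m :=
  List.mem_append.2 (Or.inl (List.mem_flatMap.2 ⟨t, List.mem_range.2 ht, by simp [blkE0]⟩))

theorem eE0_0 (m : ℕ) : (m + 4, 7 * m + 20) ∈ pagesE0 m :=
  List.mem_append.2 (Or.inr (by simp [excE0]))

theorem eE0_1 (m : ℕ) : (4 * m + 12, 6 * m + 18) ∈ pagesE0 m :=
  List.mem_append.2 (Or.inr (by simp [excE0]))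

theorem eE0_2 (m : ℕ) : (1, 8 * m + 24) ∈ pagesE0 m :=
  List.mem_append.2 (Or.inr (by simp [excE0]))

theorem eE0_3 (m : ℕ) : (3, 8 * m + 26) ∈ pagesE0 m :=
  List.mem_append.2 (Or.inr (by simp [excE0]))

theorem eE0_4 (m : ℕ) : (2, 4 * m + 14) ∈ pagesE0 m :=
  List.mem_append.2 (Or.inr (by simp [excE0]))

theorem eE0_5 (m : ℕ) : (4 * m + 13, 8 * m + 25) ∈ pagesE0 m :=
  List.mem_append.2 (Or.inr (by simp [excE0]))

theorem eE0_6 (m : ℕ) : (m + 5, 5 * m + 17) ∈ pagesE0 m :=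
  List.mem_append.2 (Or.inr (by simp [excE0]))

theorem eE0_7 (m : ℕ) : (m + 6, 7 * m + 22) ∈ pagesE0 m :=
  List.mem_append.2 (Or.inr (by simp [excE0]))

theorem eE0_8 (m : ℕ) : (m + 7, 5 * m + 16) ∈ pagesE0 m :=
  List.mem_append.2 (Or.inr (by simp [excE0]))

theorem eE0_9 (m : ℕ) : (2 * m + 9, 8 * m + 23) ∈ pagesE0 m :=
  List.mem_append.2 (Or.inr (by simp [excE0]))

theorem eE0_10 (m : ℕ) : (3 * m + 10, 7 * m + 21) ∈ pagesE0 m :=
  List.mem_append.2 (Or.inr (by simp [excE0]))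

theorem eE0_11 (m : ℕ) : (3 * m + 11, 5 * m + 15) ∈ pagesE0 m :=
  List.mem_append.2 (Or.inr (by simp [excE0]))

theorem labE0 (m x : ℕ) (h1 : 1 ≤ x) (h2 : x ≤ 2 * (4 * m + 12) + 2) :
    x = 2 * m + 8 ∨ x = 6 * m + 19 ∨ ∃ p ∈ pagesE0 m, p.1 = x ∨ p.2 = x := by
  rcases Nat.lt_or_ge x (2) with g0 | g0
  · exact Or.inr (Or.inr ⟨_, eE0_2 m, Or.inl (by simp only; omega)⟩)
  rcases Nat.lt_or_ge x (3) with g1 | g1
  · exact Or.inr (Or.inr ⟨_, eE0_4 m, Or.inl (by simp only; omega)⟩)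
  rcases Nat.lt_or_ge x (4) with g2 | g2
  · exact Or.inr (Or.inr ⟨_, eE0_3 m, Or.inl (by simp only; omega)⟩)
  rcases Nat.lt_or_ge x (m + 4) with g3 | g3
  · exact Or.inr (Or.inr ⟨_, cE0_0 (t := (x - (4))) (by omega), Or.inl (by simp only; omega)⟩)
  rcases Nat.lt_or_ge x (m + 5) with g4 | g4
  · exact Or.inr (Or.inr ⟨_, eE0_0 m, Or.inl (by simp only; omega)⟩)
  rcases Nat.lt_or_ge x (m + 6) with g5 | g5
  · exact Or.inr (Or.inr ⟨_, eE0_6 m, Or.inl (by simp only; omega)⟩)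
  rcases Nat.lt_or_ge x (m + 7) with g6 | g6
  · exact Or.inr (Or.inr ⟨_, eE0_7 m, Or.inl (by simp only; omega)⟩)
  rcases Nat.lt_or_ge x (m + 8) with g7 | g7
  · exact Or.inr (Or.inr ⟨_, eE0_8 m, Or.inl (by simp only; omega)⟩)
  rcases Nat.lt_or_ge x (2 * m + 8) with g8 | g8
  · exact Or.inr (Or.inr ⟨_, cE0_1 (t := (x - (m + 8))) (by omega), Or.inl (by simp only; omega)⟩)
  rcases Nat.lt_or_ge x (2 * m + 9) with g9 | g9
  · exact Or.inl (by omega)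
  rcases Nat.lt_or_ge x (2 * m + 10) with g10 | g10
  · exact Or.inr (Or.inr ⟨_, eE0_9 m, Or.inl (by simp only; omega)⟩)
  rcases Nat.lt_or_ge x (3 * m + 10) with g11 | g11
  · exact Or.inr (Or.inr ⟨_, cE0_2 (t := (x - (2 * m + 10))) (by omega), Or.inl (by simp only; omega)⟩)
  rcases Nat.lt_or_ge x (3 * m + 11) with g12 | g12
  · exact Or.inr (Or.inr ⟨_, eE0_10 m, Or.inl (by simp only; omega)⟩)
  rcases Nat.lt_or_ge x (3 * m + 12) with g13 | g13
  · exact Or.inr (Or.inr ⟨_, eE0_11 m, Or.inl (by simp only; omega)⟩)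
  rcases Nat.lt_or_ge x (4 * m + 12) with g14 | g14
  · exact Or.inr (Or.inr ⟨_, cE0_3 (t := (x - (3 * m + 12))) (by omega), Or.inl (by simp only; omega)⟩)
  rcases Nat.lt_or_ge x (4 * m + 13) with g15 | g15
  · exact Or.inr (Or.inr ⟨_, eE0_1 m, Or.inl (by simp only; omega)⟩)
  rcases Nat.lt_or_ge x (4 * m + 14) with g16 | g16
  · exact Or.inr (Or.inr ⟨_, eE0_5 m, Or.inl (by simp only; omega)⟩)
  rcases Nat.lt_or_ge x (4 * m + 15) with g17 | g17
  · exact Or.inr (Or.inr ⟨_, eE0_4 m, Or.inr (by simp only; omega)⟩)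
  rcases Nat.lt_or_ge x (5 * m + 15) with g18 | g18
  · exact Or.inr (Or.inr ⟨_, cE0_2 (t := (x - (4 * m + 15))) (by omega), Or.inr (by simp only; omega)⟩)
  rcases Nat.lt_or_ge x (5 * m + 16) with g19 | g19
  · exact Or.inr (Or.inr ⟨_, eE0_11 m, Or.inr (by simp only; omega)⟩)
  rcases Nat.lt_or_ge x (5 * m + 17) with g20 | g20
  · exact Or.inr (Or.inr ⟨_, eE0_8 m, Or.inr (by simp only; omega)⟩)
  rcases Nat.lt_or_ge x (5 * m + 18) with g21 | g21
  · exact Or.inr (Or.inr ⟨_, eE0_6 m, Or.inr (by simp only; omega)⟩)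
  rcases Nat.lt_or_ge x (6 * m + 18) with g22 | g22
  · exact Or.inr (Or.inr ⟨_, cE0_3 (t := (x - (5 * m + 18))) (by omega), Or.inr (by simp only; omega)⟩)
  rcases Nat.lt_or_ge x (6 * m + 19) with g23 | g23
  · exact Or.inr (Or.inr ⟨_, eE0_1 m, Or.inr (by simp only; omega)⟩)
  rcases Nat.lt_or_ge x (6 * m + 20) with g24 | g24
  · exact Or.inr (Or.inl (by omega))
  rcases Nat.lt_or_ge x (7 * m + 20) with g25 | g25
  · exact Or.inr (Or.inr ⟨_, cE0_0 (t := (x - (6 * m + 20))) (by omega), Or.inr (by simp only; omega)⟩)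
  rcases Nat.lt_or_ge x (7 * m + 21) with g26 | g26
  · exact Or.inr (Or.inr ⟨_, eE0_0 m, Or.inr (by simp only; omega)⟩)
  rcases Nat.lt_or_ge x (7 * m + 22) with g27 | g27
  · exact Or.inr (Or.inr ⟨_, eE0_10 m, Or.inr (by simp only; omega)⟩)
  rcases Nat.lt_or_ge x (7 * m + 23) with g28 | g28
  · exact Or.inr (Or.inr ⟨_, eE0_7 m, Or.inr (by simp only; omega)⟩)
  rcases Nat.lt_or_ge x (8 * m + 23) with g29 | g29
  · exact Or.inr (Or.inr ⟨_, cE0_1 (t := (x - (7 * m + 23))) (by omega), Or.inr (by simp only; omega)⟩)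
  rcases Nat.lt_or_ge x (8 * m + 24) with g30 | g30
  · exact Or.inr (Or.inr ⟨_, eE0_9 m, Or.inr (by simp only; omega)⟩)
  rcases Nat.lt_or_ge x (8 * m + 25) with g31 | g31
  · exact Or.inr (Or.inr ⟨_, eE0_2 m, Or.inr (by simp only; omega)⟩)
  rcases Nat.lt_or_ge x (8 * m + 26) with g32 | g32
  · exact Or.inr (Or.inr ⟨_, eE0_5 m, Or.inr (by simp only; omega)⟩)
  exact Or.inr (Or.inr ⟨_, eE0_3 m, Or.inr (by simp only; omega)⟩)

theorem sumE0 (m x : ℕ) (h1 : 2 * m + 9 ≤ x) (h2 : x ≤ 2 * m + 9 + 3 * (4 * m + 12)) :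
    x = 2 * m + 8 + (6 * m + 19) ∨ ∃ p ∈ pagesE0 m,
      2 * m + 8 + p.1 = x ∨ 6 * m + 19 + p.2 = x ∨ p.1 + p.2 = x := by
  rcases Nat.lt_or_ge x (2 * m + 10) with g0 | g0
  · exact Or.inr ⟨_, eE0_2 m, Or.inl (by simp only; omega)⟩
  rcases Nat.lt_or_ge x (2 * m + 11) with g1 | g1
  · exact Or.inr ⟨_, eE0_4 m, Or.inl (by simp only; omega)⟩
  rcases Nat.lt_or_ge x (2 * m + 12) with g2 | g2
  · exact Or.inr ⟨_, eE0_3 m, Or.inl (by simp only; omega)⟩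
  rcases Nat.lt_or_ge x (3 * m + 12) with g3 | g3
  · exact Or.inr ⟨_, cE0_0 (t := (x - (2 * m + 12))) (by omega), Or.inl (by simp only; omega)⟩
  rcases Nat.lt_or_ge x (3 * m + 13) with g4 | g4
  · exact Or.inr ⟨_, eE0_0 m, Or.inl (by simp only; omega)⟩
  rcases Nat.lt_or_ge x (3 * m + 14) with g5 | g5
  · exact Or.inr ⟨_, eE0_6 m, Or.inl (by simp only; omega)⟩
  rcases Nat.lt_or_ge x (3 * m + 15) with g6 | g6
  · exact Or.inr ⟨_, eE0_7 m, Or.inl (by simp only; omega)⟩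
  rcases Nat.lt_or_ge x (3 * m + 16) with g7 | g7
  · exact Or.inr ⟨_, eE0_8 m, Or.inl (by simp only; omega)⟩
  rcases Nat.lt_or_ge x (4 * m + 16) with g8 | g8
  · exact Or.inr ⟨_, cE0_1 (t := (x - (3 * m + 16))) (by omega), Or.inl (by simp only; omega)⟩
  rcases Nat.lt_or_ge x (4 * m + 17) with g9 | g9
  · exact Or.inr ⟨_, eE0_4 m, Or.inr (Or.inr (by simp only; omega))⟩
  rcases Nat.lt_or_ge x (4 * m + 18) with g10 | g10
  · exact Or.inr ⟨_, eE0_9 m, Or.inl (by simp only; omega)⟩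
  rcases Nat.lt_or_ge x (5 * m + 18) with g11 | g11
  · exact Or.inr ⟨_, cE0_2 (t := (x - (4 * m + 18))) (by omega), Or.inl (by simp only; omega)⟩
  rcases Nat.lt_or_ge x (5 * m + 19) with g12 | g12
  · exact Or.inr ⟨_, eE0_10 m, Or.inl (by simp only; omega)⟩
  rcases Nat.lt_or_ge x (5 * m + 20) with g13 | g13
  · exact Or.inr ⟨_, eE0_11 m, Or.inl (by simp only; omega)⟩
  rcases Nat.lt_or_ge x (6 * m + 20) with g14 | g14
  · exact Or.inr ⟨_, cE0_3 (t := (x - (5 * m + 20))) (by omega), Or.inl (by simp only; omega)⟩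
  rcases Nat.lt_or_ge x (6 * m + 21) with g15 | g15
  · exact Or.inr ⟨_, eE0_1 m, Or.inl (by simp only; omega)⟩
  rcases Nat.lt_or_ge x (6 * m + 22) with g16 | g16
  · exact Or.inr ⟨_, eE0_5 m, Or.inl (by simp only; omega)⟩
  rcases Nat.lt_or_ge x (6 * m + 23) with g17 | g17
  · exact Or.inr ⟨_, eE0_6 m, Or.inr (Or.inr (by simp only; omega))⟩
  rcases Nat.lt_or_ge x (6 * m + 24) with g18 | g18
  · exact Or.inr ⟨_, eE0_8 m, Or.inr (Or.inr (by simp only; omega))⟩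
  rcases Nat.lt_or_ge x (8 * m + 24) with g19 | g19
  · rcases Nat.even_or_odd' (x - (6 * m + 24)) with ⟨w, hw | hw⟩
    · exact Or.inr ⟨_, cE0_0 (t := ((x - (6 * m + 24)) / 2)) (by omega), Or.inr (Or.inr (by simp only; omega))⟩
    · exact Or.inr ⟨_, cE0_2 (t := ((x - (6 * m + 25)) / 2)) (by omega), Or.inr (Or.inr (by simp only; omega))⟩
  rcases Nat.lt_or_ge x (8 * m + 25) with g20 | g20
  · exact Or.inr ⟨_, eE0_0 m, Or.inr (Or.inr (by simp only; omega))⟩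
  rcases Nat.lt_or_ge x (8 * m + 26) with g21 | g21
  · exact Or.inr ⟨_, eE0_2 m, Or.inr (Or.inr (by simp only; omega))⟩
  rcases Nat.lt_or_ge x (8 * m + 27) with g22 | g22
  · exact Or.inr ⟨_, eE0_11 m, Or.inr (Or.inr (by simp only; omega))⟩
  rcases Nat.lt_or_ge x (8 * m + 28) with g23 | g23
  · exact Or.inl (by omega)
  rcases Nat.lt_or_ge x (8 * m + 29) with g24 | g24
  · exact Or.inr ⟨_, eE0_7 m, Or.inr (Or.inr (by simp only; omega))⟩
  rcases Nat.lt_or_ge x (8 * m + 30) with g25 | g25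
  · exact Or.inr ⟨_, eE0_3 m, Or.inr (Or.inr (by simp only; omega))⟩
  rcases Nat.lt_or_ge x (10 * m + 30) with g26 | g26
  · rcases Nat.even_or_odd' (x - (8 * m + 30)) with ⟨w, hw | hw⟩
    · exact Or.inr ⟨_, cE0_3 (t := ((x - (8 * m + 30)) / 2)) (by omega), Or.inr (Or.inr (by simp only; omega))⟩
    · exact Or.inr ⟨_, cE0_1 (t := ((x - (8 * m + 31)) / 2)) (by omega), Or.inr (Or.inr (by simp only; omega))⟩
  rcases Nat.lt_or_ge x (10 * m + 31) with g27 | g27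
  · exact Or.inr ⟨_, eE0_1 m, Or.inr (Or.inr (by simp only; omega))⟩
  rcases Nat.lt_or_ge x (10 * m + 32) with g28 | g28
  · exact Or.inr ⟨_, eE0_10 m, Or.inr (Or.inr (by simp only; omega))⟩
  rcases Nat.lt_or_ge x (10 * m + 33) with g29 | g29
  · exact Or.inr ⟨_, eE0_9 m, Or.inr (Or.inr (by simp only; omega))⟩
  rcases Nat.lt_or_ge x (10 * m + 34) with g30 | g30
  · exact Or.inr ⟨_, eE0_4 m, Or.inr (Or.inl (by simp only; omega))⟩
  rcases Nat.lt_or_ge x (11 * m + 34) with g31 | g31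
  · exact Or.inr ⟨_, cE0_2 (t := (x - (10 * m + 34))) (by omega), Or.inr (Or.inl (by simp only; omega))⟩
  rcases Nat.lt_or_ge x (11 * m + 35) with g32 | g32
  · exact Or.inr ⟨_, eE0_11 m, Or.inr (Or.inl (by simp only; omega))⟩
  rcases Nat.lt_or_ge x (11 * m + 36) with g33 | g33
  · exact Or.inr ⟨_, eE0_8 m, Or.inr (Or.inl (by simp only; omega))⟩
  rcases Nat.lt_or_ge x (11 * m + 37) with g34 | g34
  · exact Or.inr ⟨_, eE0_6 m, Or.inr (Or.inl (by simp only; omega))⟩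
  rcases Nat.lt_or_ge x (12 * m + 37) with g35 | g35
  · exact Or.inr ⟨_, cE0_3 (t := (x - (11 * m + 37))) (by omega), Or.inr (Or.inl (by simp only; omega))⟩
  rcases Nat.lt_or_ge x (12 * m + 38) with g36 | g36
  · exact Or.inr ⟨_, eE0_1 m, Or.inr (Or.inl (by simp only; omega))⟩
  rcases Nat.lt_or_ge x (12 * m + 39) with g37 | g37
  · exact Or.inr ⟨_, eE0_5 m, Or.inr (Or.inr (by simp only; omega))⟩
  rcases Nat.lt_or_ge x (13 * m + 39) with g38 | g38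
  · exact Or.inr ⟨_, cE0_0 (t := (x - (12 * m + 39))) (by omega), Or.inr (Or.inl (by simp only; omega))⟩
  rcases Nat.lt_or_ge x (13 * m + 40) with g39 | g39
  · exact Or.inr ⟨_, eE0_0 m, Or.inr (Or.inl (by simp only; omega))⟩
  rcases Nat.lt_or_ge x (13 * m + 41) with g40 | g40
  · exact Or.inr ⟨_, eE0_10 m, Or.inr (Or.inl (by simp only; omega))⟩
  rcases Nat.lt_or_ge x (13 * m + 42) with g41 | g41
  · exact Or.inr ⟨_, eE0_7 m, Or.inr (Or.inl (by simp only; omega))⟩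
  rcases Nat.lt_or_ge x (14 * m + 42) with g42 | g42
  · exact Or.inr ⟨_, cE0_1 (t := (x - (13 * m + 42))) (by omega), Or.inr (Or.inl (by simp only; omega))⟩
  rcases Nat.lt_or_ge x (14 * m + 43) with g43 | g43
  · exact Or.inr ⟨_, eE0_9 m, Or.inr (Or.inl (by simp only; omega))⟩
  rcases Nat.lt_or_ge x (14 * m + 44) with g44 | g44
  · exact Or.inr ⟨_, eE0_2 m, Or.inr (Or.inl (by simp only; omega))⟩
  rcases Nat.lt_or_ge x (14 * m + 45) with g45 | g45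
  · exact Or.inr ⟨_, eE0_5 m, Or.inr (Or.inl (by simp only; omega))⟩
  exact Or.inr ⟨_, eE0_3 m, Or.inr (Or.inl (by simp only; omega))⟩

/-! ### Family E1: `n = 4 * m + 10` -/

/-- the regular pages of family E1 -/
def blkE1 (m t : ℕ) : List (ℕ × ℕ) :=
  [(4 + t, 6 * m + 17 + t),
   (m + 6 + t, 7 * m + 20 + t),
   (2 * m + 8 + t, 4 * m + 14 + t),
   (3 * m + 11 + t, 5 * m + 16 + t)]

/-- the irregular pages of family E1 -/
def excE1 (m : ℕ) : List (ℕ × ℕ) :=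
  [(1, 8 * m + 20),
   (3, 8 * m + 22),
   (2, 4 * m + 12),
   (4 * m + 11, 8 * m + 21),
   (m + 4, 7 * m + 18),
   (m + 5, 5 * m + 15),
   (2 * m + 6, 4 * m + 13),
   (3 * m + 8, 7 * m + 19),
   (3 * m + 9, 7 * m + 17),
   (3 * m + 10, 5 * m + 14)]

/-- the pages of family E1 -/
def pagesE1 (m : ℕ) : List (ℕ × ℕ) := (List.range m).flatMap (blkE1 m) ++ excE1 m

theorem lenE1 (m : ℕ) : (pagesE1 m).length = 4 * m + 10 := by
  simp [pagesE1, blkE1, excE1, List.length_flatMap]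
  try omega

theorem cE1_0 {m t : ℕ} (ht : t < m) : (4 + t, 6 * m + 17 + t) ∈ pagesE1 m :=
  List.mem_append.2 (Or.inl (List.mem_flatMap.2 ⟨t, List.mem_range.2 ht, by simp [blkE1]⟩))

theorem cE1_1 {m t : ℕ} (ht : t < m) : (m + 6 + t, 7 * m + 20 + t) ∈ pagesE1 m :=
  List.mem_append.2 (Or.inl (List.mem_flatMap.2 ⟨t, List.mem_range.2 ht, by simp [blkE1]⟩))

theorem cE1_2 {m t : ℕ} (ht : t < m) : (2 * m + 8 + t, 4 * m + 14 + t) ∈ pagesE1 m :=
  List.mem_append.2 (Or.inl (List.mem_flatMap.2 ⟨t, List.mem_range.2 ht, by simp [blkE1]⟩))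

theorem cE1_3 {m t : ℕ} (ht : t < m) : (3 * m + 11 + t, 5 * m + 16 + t) ∈ pagesE1 m :=
  List.mem_append.2 (Or.inl (List.mem_flatMap.2 ⟨t, List.mem_range.2 ht, by simp [blkE1]⟩))

theorem eE1_0 (m : ℕ) : (1, 8 * m + 20) ∈ pagesE1 m :=
  List.mem_append.2 (Or.inr (by simp [excE1]))

theorem eE1_1 (m : ℕ) : (3, 8 * m + 22) ∈ pagesE1 m :=
  List.mem_append.2 (Or.inr (by simp [excE1]))

theorem eE1_2 (m : ℕ) : (2, 4 * m + 12) ∈ pagesE1 m :=
  List.mem_append.2 (Or.inr (by simp [excE1]))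

theorem eE1_3 (m : ℕ) : (4 * m + 11, 8 * m + 21) ∈ pagesE1 m :=
  List.mem_append.2 (Or.inr (by simp [excE1]))

theorem eE1_4 (m : ℕ) : (m + 4, 7 * m + 18) ∈ pagesE1 m :=
  List.mem_append.2 (Or.inr (by simp [excE1]))

theorem eE1_5 (m : ℕ) : (m + 5, 5 * m + 15) ∈ pagesE1 m :=
  List.mem_append.2 (Or.inr (by simp [excE1]))

theorem eE1_6 (m : ℕ) : (2 * m + 6, 4 * m + 13) ∈ pagesE1 m :=
  List.mem_append.2 (Or.inr (by simp [excE1]))

theorem eE1_7 (m : ℕ) : (3 * m + 8, 7 * m + 19) ∈ pagesE1 m :=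
  List.mem_append.2 (Or.inr (by simp [excE1]))

theorem eE1_8 (m : ℕ) : (3 * m + 9, 7 * m + 17) ∈ pagesE1 m :=
  List.mem_append.2 (Or.inr (by simp [excE1]))

theorem eE1_9 (m : ℕ) : (3 * m + 10, 5 * m + 14) ∈ pagesE1 m :=
  List.mem_append.2 (Or.inr (by simp [excE1]))

theorem labE1 (m x : ℕ) (h1 : 1 ≤ x) (h2 : x ≤ 2 * (4 * m + 10) + 2) :
    x = 2 * m + 7 ∨ x = 6 * m + 16 ∨ ∃ p ∈ pagesE1 m, p.1 = x ∨ p.2 = x := by
  rcases Nat.lt_or_ge x (2) with g0 | g0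
  · exact Or.inr (Or.inr ⟨_, eE1_0 m, Or.inl (by simp only; omega)⟩)
  rcases Nat.lt_or_ge x (3) with g1 | g1
  · exact Or.inr (Or.inr ⟨_, eE1_2 m, Or.inl (by simp only; omega)⟩)
  rcases Nat.lt_or_ge x (4) with g2 | g2
  · exact Or.inr (Or.inr ⟨_, eE1_1 m, Or.inl (by simp only; omega)⟩)
  rcases Nat.lt_or_ge x (m + 4) with g3 | g3
  · exact Or.inr (Or.inr ⟨_, cE1_0 (t := (x - (4))) (by omega), Or.inl (by simp only; omega)⟩)
  rcases Nat.lt_or_ge x (m + 5) with g4 | g4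
  · exact Or.inr (Or.inr ⟨_, eE1_4 m, Or.inl (by simp only; omega)⟩)
  rcases Nat.lt_or_ge x (m + 6) with g5 | g5
  · exact Or.inr (Or.inr ⟨_, eE1_5 m, Or.inl (by simp only; omega)⟩)
  rcases Nat.lt_or_ge x (2 * m + 6) with g6 | g6
  · exact Or.inr (Or.inr ⟨_, cE1_1 (t := (x - (m + 6))) (by omega), Or.inl (by simp only; omega)⟩)
  rcases Nat.lt_or_ge x (2 * m + 7) with g7 | g7
  · exact Or.inr (Or.inr ⟨_, eE1_6 m, Or.inl (by simp only; omega)⟩)
  rcases Nat.lt_or_ge x (2 * m + 8) with g8 | g8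
  · exact Or.inl (by omega)
  rcases Nat.lt_or_ge x (3 * m + 8) with g9 | g9
  · exact Or.inr (Or.inr ⟨_, cE1_2 (t := (x - (2 * m + 8))) (by omega), Or.inl (by simp only; omega)⟩)
  rcases Nat.lt_or_ge x (3 * m + 9) with g10 | g10
  · exact Or.inr (Or.inr ⟨_, eE1_7 m, Or.inl (by simp only; omega)⟩)
  rcases Nat.lt_or_ge x (3 * m + 10) with g11 | g11
  · exact Or.inr (Or.inr ⟨_, eE1_8 m, Or.inl (by simp only; omega)⟩)
  rcases Nat.lt_or_ge x (3 * m + 11) with g12 | g12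
  · exact Or.inr (Or.inr ⟨_, eE1_9 m, Or.inl (by simp only; omega)⟩)
  rcases Nat.lt_or_ge x (4 * m + 11) with g13 | g13
  · exact Or.inr (Or.inr ⟨_, cE1_3 (t := (x - (3 * m + 11))) (by omega), Or.inl (by simp only; omega)⟩)
  rcases Nat.lt_or_ge x (4 * m + 12) with g14 | g14
  · exact Or.inr (Or.inr ⟨_, eE1_3 m, Or.inl (by simp only; omega)⟩)
  rcases Nat.lt_or_ge x (4 * m + 13) with g15 | g15
  · exact Or.inr (Or.inr ⟨_, eE1_2 m, Or.inr (by simp only; omega)⟩)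
  rcases Nat.lt_or_ge x (4 * m + 14) with g16 | g16
  · exact Or.inr (Or.inr ⟨_, eE1_6 m, Or.inr (by simp only; omega)⟩)
  rcases Nat.lt_or_ge x (5 * m + 14) with g17 | g17
  · exact Or.inr (Or.inr ⟨_, cE1_2 (t := (x - (4 * m + 14))) (by omega), Or.inr (by simp only; omega)⟩)
  rcases Nat.lt_or_ge x (5 * m + 15) with g18 | g18
  · exact Or.inr (Or.inr ⟨_, eE1_9 m, Or.inr (by simp only; omega)⟩)
  rcases Nat.lt_or_ge x (5 * m + 16) with g19 | g19
  · exact Or.inr (Or.inr ⟨_, eE1_5 m, Or.inr (by simp only; omega)⟩)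
  rcases Nat.lt_or_ge x (6 * m + 16) with g20 | g20
  · exact Or.inr (Or.inr ⟨_, cE1_3 (t := (x - (5 * m + 16))) (by omega), Or.inr (by simp only; omega)⟩)
  rcases Nat.lt_or_ge x (6 * m + 17) with g21 | g21
  · exact Or.inr (Or.inl (by omega))
  rcases Nat.lt_or_ge x (7 * m + 17) with g22 | g22
  · exact Or.inr (Or.inr ⟨_, cE1_0 (t := (x - (6 * m + 17))) (by omega), Or.inr (by simp only; omega)⟩)
  rcases Nat.lt_or_ge x (7 * m + 18) with g23 | g23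
  · exact Or.inr (Or.inr ⟨_, eE1_8 m, Or.inr (by simp only; omega)⟩)
  rcases Nat.lt_or_ge x (7 * m + 19) with g24 | g24
  · exact Or.inr (Or.inr ⟨_, eE1_4 m, Or.inr (by simp only; omega)⟩)
  rcases Nat.lt_or_ge x (7 * m + 20) with g25 | g25
  · exact Or.inr (Or.inr ⟨_, eE1_7 m, Or.inr (by simp only; omega)⟩)
  rcases Nat.lt_or_ge x (8 * m + 20) with g26 | g26
  · exact Or.inr (Or.inr ⟨_, cE1_1 (t := (x - (7 * m + 20))) (by omega), Or.inr (by simp only; omega)⟩)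
  rcases Nat.lt_or_ge x (8 * m + 21) with g27 | g27
  · exact Or.inr (Or.inr ⟨_, eE1_0 m, Or.inr (by simp only; omega)⟩)
  rcases Nat.lt_or_ge x (8 * m + 22) with g28 | g28
  · exact Or.inr (Or.inr ⟨_, eE1_3 m, Or.inr (by simp only; omega)⟩)
  exact Or.inr (Or.inr ⟨_, eE1_1 m, Or.inr (by simp only; omega)⟩)

theorem sumE1 (m x : ℕ) (h1 : 2 * m + 8 ≤ x) (h2 : x ≤ 2 * m + 8 + 3 * (4 * m + 10)) :
    x = 2 * m + 7 + (6 * m + 16) ∨ ∃ p ∈ pagesE1 m,
      2 * m + 7 + p.1 = x ∨ 6 * m + 16 + p.2 = x ∨ p.1 + p.2 = x := by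
  rcases Nat.lt_or_ge x (2 * m + 9) with g0 | g0
  · exact Or.inr ⟨_, eE1_0 m, Or.inl (by simp only; omega)⟩
  rcases Nat.lt_or_ge x (2 * m + 10) with g1 | g1
  · exact Or.inr ⟨_, eE1_2 m, Or.inl (by simp only; omega)⟩
  rcases Nat.lt_or_ge x (2 * m + 11) with g2 | g2
  · exact Or.inr ⟨_, eE1_1 m, Or.inl (by simp only; omega)⟩
  rcases Nat.lt_or_ge x (3 * m + 11) with g3 | g3
  · exact Or.inr ⟨_, cE1_0 (t := (x - (2 * m + 11))) (by omega), Or.inl (by simp only; omega)⟩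
  rcases Nat.lt_or_ge x (3 * m + 12) with g4 | g4
  · exact Or.inr ⟨_, eE1_4 m, Or.inl (by simp only; omega)⟩
  rcases Nat.lt_or_ge x (3 * m + 13) with g5 | g5
  · exact Or.inr ⟨_, eE1_5 m, Or.inl (by simp only; omega)⟩
  rcases Nat.lt_or_ge x (4 * m + 13) with g6 | g6
  · exact Or.inr ⟨_, cE1_1 (t := (x - (3 * m + 13))) (by omega), Or.inl (by simp only; omega)⟩
  rcases Nat.lt_or_ge x (4 * m + 14) with g7 | g7
  · exact Or.inr ⟨_, eE1_6 m, Or.inl (by simp only; omega)⟩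
  rcases Nat.lt_or_ge x (4 * m + 15) with g8 | g8
  · exact Or.inr ⟨_, eE1_2 m, Or.inr (Or.inr (by simp only; omega))⟩
  rcases Nat.lt_or_ge x (5 * m + 15) with g9 | g9
  · exact Or.inr ⟨_, cE1_2 (t := (x - (4 * m + 15))) (by omega), Or.inl (by simp only; omega)⟩
  rcases Nat.lt_or_ge x (5 * m + 16) with g10 | g10
  · exact Or.inr ⟨_, eE1_7 m, Or.inl (by simp only; omega)⟩
  rcases Nat.lt_or_ge x (5 * m + 17) with g11 | g11
  · exact Or.inr ⟨_, eE1_8 m, Or.inl (by simp only; omega)⟩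
  rcases Nat.lt_or_ge x (5 * m + 18) with g12 | g12
  · exact Or.inr ⟨_, eE1_9 m, Or.inl (by simp only; omega)⟩
  rcases Nat.lt_or_ge x (6 * m + 18) with g13 | g13
  · exact Or.inr ⟨_, cE1_3 (t := (x - (5 * m + 18))) (by omega), Or.inl (by simp only; omega)⟩
  rcases Nat.lt_or_ge x (6 * m + 19) with g14 | g14
  · exact Or.inr ⟨_, eE1_3 m, Or.inl (by simp only; omega)⟩
  rcases Nat.lt_or_ge x (6 * m + 20) with g15 | g15
  · exact Or.inr ⟨_, eE1_6 m, Or.inr (Or.inr (by simp only; omega))⟩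
  rcases Nat.lt_or_ge x (6 * m + 21) with g16 | g16
  · exact Or.inr ⟨_, eE1_5 m, Or.inr (Or.inr (by simp only; omega))⟩
  rcases Nat.lt_or_ge x (8 * m + 21) with g17 | g17
  · rcases Nat.even_or_odd' (x - (6 * m + 21)) with ⟨w, hw | hw⟩
    · exact Or.inr ⟨_, cE1_0 (t := ((x - (6 * m + 21)) / 2)) (by omega), Or.inr (Or.inr (by simp only; omega))⟩
    · exact Or.inr ⟨_, cE1_2 (t := ((x - (6 * m + 22)) / 2)) (by omega), Or.inr (Or.inr (by simp only; omega))⟩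
  rcases Nat.lt_or_ge x (8 * m + 22) with g18 | g18
  · exact Or.inr ⟨_, eE1_0 m, Or.inr (Or.inr (by simp only; omega))⟩
  rcases Nat.lt_or_ge x (8 * m + 23) with g19 | g19
  · exact Or.inr ⟨_, eE1_4 m, Or.inr (Or.inr (by simp only; omega))⟩
  rcases Nat.lt_or_ge x (8 * m + 24) with g20 | g20
  · exact Or.inl (by omega)
  rcases Nat.lt_or_ge x (8 * m + 25) with g21 | g21
  · exact Or.inr ⟨_, eE1_9 m, Or.inr (Or.inr (by simp only; omega))⟩
  rcases Nat.lt_or_ge x (8 * m + 26) with g22 | g22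
  · exact Or.inr ⟨_, eE1_1 m, Or.inr (Or.inr (by simp only; omega))⟩
  rcases Nat.lt_or_ge x (10 * m + 26) with g23 | g23
  · rcases Nat.even_or_odd' (x - (8 * m + 26)) with ⟨w, hw | hw⟩
    · exact Or.inr ⟨_, cE1_1 (t := ((x - (8 * m + 26)) / 2)) (by omega), Or.inr (Or.inr (by simp only; omega))⟩
    · exact Or.inr ⟨_, cE1_3 (t := ((x - (8 * m + 27)) / 2)) (by omega), Or.inr (Or.inr (by simp only; omega))⟩
  rcases Nat.lt_or_ge x (10 * m + 27) with g24 | g24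
  · exact Or.inr ⟨_, eE1_8 m, Or.inr (Or.inr (by simp only; omega))⟩
  rcases Nat.lt_or_ge x (10 * m + 28) with g25 | g25
  · exact Or.inr ⟨_, eE1_7 m, Or.inr (Or.inr (by simp only; omega))⟩
  rcases Nat.lt_or_ge x (10 * m + 29) with g26 | g26
  · exact Or.inr ⟨_, eE1_2 m, Or.inr (Or.inl (by simp only; omega))⟩
  rcases Nat.lt_or_ge x (10 * m + 30) with g27 | g27
  · exact Or.inr ⟨_, eE1_6 m, Or.inr (Or.inl (by simp only; omega))⟩
  rcases Nat.lt_or_ge x (11 * m + 30) with g28 | g28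
  · exact Or.inr ⟨_, cE1_2 (t := (x - (10 * m + 30))) (by omega), Or.inr (Or.inl (by simp only; omega))⟩
  rcases Nat.lt_or_ge x (11 * m + 31) with g29 | g29
  · exact Or.inr ⟨_, eE1_9 m, Or.inr (Or.inl (by simp only; omega))⟩
  rcases Nat.lt_or_ge x (11 * m + 32) with g30 | g30
  · exact Or.inr ⟨_, eE1_5 m, Or.inr (Or.inl (by simp only; omega))⟩
  rcases Nat.lt_or_ge x (12 * m + 32) with g31 | g31
  · exact Or.inr ⟨_, cE1_3 (t := (x - (11 * m + 32))) (by omega), Or.inr (Or.inl (by simp only; omega))⟩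
  rcases Nat.lt_or_ge x (12 * m + 33) with g32 | g32
  · exact Or.inr ⟨_, eE1_3 m, Or.inr (Or.inr (by simp only; omega))⟩
  rcases Nat.lt_or_ge x (13 * m + 33) with g33 | g33
  · exact Or.inr ⟨_, cE1_0 (t := (x - (12 * m + 33))) (by omega), Or.inr (Or.inl (by simp only; omega))⟩
  rcases Nat.lt_or_ge x (13 * m + 34) with g34 | g34
  · exact Or.inr ⟨_, eE1_8 m, Or.inr (Or.inl (by simp only; omega))⟩
  rcases Nat.lt_or_ge x (13 * m + 35) with g35 | g35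
  · exact Or.inr ⟨_, eE1_4 m, Or.inr (Or.inl (by simp only; omega))⟩
  rcases Nat.lt_or_ge x (13 * m + 36) with g36 | g36
  · exact Or.inr ⟨_, eE1_7 m, Or.inr (Or.inl (by simp only; omega))⟩
  rcases Nat.lt_or_ge x (14 * m + 36) with g37 | g37
  · exact Or.inr ⟨_, cE1_1 (t := (x - (13 * m + 36))) (by omega), Or.inr (Or.inl (by simp only; omega))⟩
  rcases Nat.lt_or_ge x (14 * m + 37) with g38 | g38
  · exact Or.inr ⟨_, eE1_0 m, Or.inr (Or.inl (by simp only; omega))⟩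
  rcases Nat.lt_or_ge x (14 * m + 38) with g39 | g39
  · exact Or.inr ⟨_, eE1_3 m, Or.inr (Or.inl (by simp only; omega))⟩
  exact Or.inr ⟨_, eE1_1 m, Or.inr (Or.inl (by simp only; omega))⟩

end Pool.Agent.X239.BK
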