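import Pool.Agent.X239.BK.Fams

/-! MP_a60869_co: the characterisation of the super edge-magic books. -/

namespace Pool.Agent.X239.BK

theorem sem5 (m : ℕ) : IsSuperEdgeMagic (book (8 * m + 5)) :=
  sem_of_pages _ _ _ _ (pages5 m) (len5 m) (lab5 m) (sum5 m)

theorem semE0 (m : ℕ) : IsSuperEdgeMagic (book (4 * m + 12)) :=
  sem_of_pages _ _ _ _ (pagesE0 m) (lenE0 m) (labE0 m) (sumE0 m)

theorem semE1 (m : ℕ) : IsSuperEdgeMagic (book (4 * m + 10)) :=
  sem_of_pages _ _ _ _ (pagesE1 m) (lenE1 m) (labE1 m) (sumE1 m)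

/-- decidable check for small cases -/
def ok (n U V s : ℕ) (pages : List (ℕ × ℕ)) : Bool :=
  decide (pages.length = n) &&
  (List.range (2 * n + 3)).all (fun x => decide (x = 0) || decide (x = U) || decide (x = V) ||
    pages.any fun p => decide (p.1 = x) || decide (p.2 = x)) &&
  (List.range (s + 3 * n + 1)).all (fun y => decide (y < s) || decide (y = U + V) ||
    pages.any fun p => decide (U + p.1 = y) || decide (V + p.2 = y) || decide (p.1 + p.2 = y))

theorem sem_of_ok (n U V s : ℕ) (pages : List (ℕ × ℕ)) (h : ok n U V s pages = true) :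
    IsSuperEdgeMagic (book n) := by
  simp only [ok, Bool.and_eq_true, decide_eq_true_eq, List.all_eq_true, List.mem_range,
    Bool.or_eq_true, List.any_eq_true] at h
  obtain ⟨⟨h1, h2⟩, h3⟩ := h
  apply sem_of_pages n U V s pages h1
  · intro x hx1 hx2
    rcases h2 x (by omega) with ((h | h) | h) | ⟨p, hp, h⟩
    · omega
    · exact Or.inl h
    · exact Or.inr (Or.inl h)
    · exact Or.inr (Or.inr ⟨p, hp, h⟩)
  · intro y hy1 hy2
    rcases h3 y (by omega) with (h | h) | ⟨p, hp, (h | h) | h⟩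
    · omega
    · exact Or.inl h
    · exact Or.inr ⟨p, hp, Or.inl h⟩
    · exact Or.inr ⟨p, hp, Or.inr (Or.inl h)⟩
    · exact Or.inr ⟨p, hp, Or.inr (Or.inr h)⟩

theorem sem6 : IsSuperEdgeMagic (book 6) :=
  sem_of_ok 6 5 10 6 [(1, 9), (2, 11), (3, 14), (4, 12), (6, 8), (7, 13)] (by decide +kernel)

theorem sem8 : IsSuperEdgeMagic (book 8) :=
  sem_of_ok 8 1 18 7 [(6, 2), (8, 5), (9, 3), (10, 4), (14, 13), (15, 11), (16, 12), (17, 7)]
    (by decide +kernel)

/-- For `n ≥ 5`, the book `B_n` is super edge-magic iff `n` is even or `n ≡ 5 (mod 8)`. -/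
theorem main (n : ℕ) (hn : 5 ≤ n) : IsSuperEdgeMagic (book n) ↔ Even n ∨ n % 8 = 5 := by
  refine ⟨necessary n, ?_⟩
  rintro (h | h)
  · rcases Nat.even_iff.1 h with h2
    by_cases h6 : n = 6
    · subst h6; exact sem6
    by_cases h8 : n = 8
    · subst h8; exact sem8
    rcases (by omega : n % 4 = 0 ∨ n % 4 = 2) with h4 | h4
    · obtain ⟨m, rfl⟩ : ∃ m, n = 4 * m + 12 := ⟨(n - 12) / 4, by omega⟩
      exact semE0 m
    · obtain ⟨m, rfl⟩ : ∃ m, n = 4 * m + 10 := ⟨(n - 10) / 4, by omega⟩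
      exact semE1 m
  · obtain ⟨m, rfl⟩ : ∃ m, n = 8 * m + 5 := ⟨n / 8, by omega⟩
    exact sem5 m

end Pool.Agent.X239.BK
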